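import Pool.Agent.Lib.Pd7a79b.GoluzinIface
import Pool.Agent.Lib.Pd7a79b.Final

set_option autoImplicit false

open Complex Metric Set Filter Topology

namespace Pool.Agent.Results.MP_d7a79b_an.SecondCoefficient

/-- Every normalised bi-univalent function satisfies the bound 181/128 for its second coefficient. -/
theorem result (f g : ℂ → ℂ)
    (hf : DifferentiableOn ℂ f (Metric.ball (0 : ℂ) 1)) (hfi : Set.InjOn f (Metric.ball (0 : ℂ) 1))
    (hf0 : f 0 = 0) (hf1 : deriv f 0 = 1)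
    (hg : DifferentiableOn ℂ g (Metric.ball (0 : ℂ) 1)) (hgi : Set.InjOn g (Metric.ball (0 : ℂ) 1))
    (hgf : ∀ᶠ z in nhds (0 : ℂ), g (f z) = z) :
    ‖iteratedDeriv 2 f 0 / 2‖ ≤ 181 / 128 ∧ (181 / 128 : ℝ) < Real.sqrt 2 := by
  refine ⟨?_, ?_⟩
  · have h := Pool.Agent.Lib.Pd7a79b.coeff_le Pool.Agent.Lib.Pd7a79b.goluzin_statement
      hf hfi hf0 hf1 hg hgi hgf
    rw [norm_div]
    simpa using h
  · rw [Real.lt_sqrt (by norm_num)]
    norm_num

end Pool.Agent.Results.MP_d7a79b_an.SecondCoefficient
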